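import Mathlib

/-!
# `x⁴ + y⁴ = c z⁴` with `x, y` coprime and `z > 1`: definition
-/

namespace Pool.Agent.Helper808.Quart

/-- `c` is admissible: `x⁴ + y⁴ = c z⁴` has a solution with `x, y` coprime and `z > 1`. -/
def Admissible (c : ℤ) : Prop :=
  ∃ x y z : ℤ, IsCoprime x y ∧ 1 < z ∧ x ^ 4 + y ^ 4 = c * z ^ 4

end Pool.Agent.Helper808.Quart
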