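import Mathlib
import Pool.Agent.Helper808.Quart.Defs

/-!
# `x⁴ + y⁴ = c z⁴`: necessary conditions and infinitely many admissible `c`
-/

set_option autoImplicit false

namespace Pool.Agent.Helper808.Quart


namespace JP

theorem primes (x y : ℤ) (h : IsCoprime x y) (p : ℕ) (hp : p.Prime) (h2 : p ≠ 2)
    (hd : (p : ℤ) ∣ x ^ 4 + y ^ 4) : p % 8 = 1 := by
  haveI := Fact.mk hp
  have hp2 : 2 < p := lt_of_le_of_ne hp.two_le (Ne.symm h2)
  haveI : Fact (2 < p) := ⟨hp2⟩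
  have h0 : (x : ZMod p) ^ 4 + (y : ZMod p) ^ 4 = 0 := by
    have := (ZMod.intCast_zmod_eq_zero_iff_dvd (x ^ 4 + y ^ 4) p).2 hd
    push_cast at this
    exact this
  have hy : (y : ZMod p) ≠ 0 := by
    intro hy
    have hx : (x : ZMod p) = 0 := by
      rw [hy] at h0
      have : (x : ZMod p) ^ 4 = 0 := by simpa using h0
      exact pow_eq_zero_iff (by norm_num) |>.1 this
    have h1 := (ZMod.intCast_zmod_eq_zero_iff_dvd x p).1 hx
    have h3 := (ZMod.intCast_zmod_eq_zero_iff_dvd y p).1 hy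
    have h4 := h.isUnit_of_dvd' h1 h3
    have h5 := Int.isUnit_iff.1 h4
    have h6 := hp.two_le
    omega
  obtain ⟨t, ht⟩ : ∃ t : ZMod p, t = (x : ZMod p) / (y : ZMod p) := ⟨_, rfl⟩
  have ht4 : t ^ 4 = -1 := by
    rw [ht, div_pow, div_eq_iff (pow_ne_zero 4 hy)]
    linear_combination h0
  have ht0 : t ≠ 0 := by
    intro h
    rw [h] at ht4
    have : (1 : ZMod p) = 0 := by
      have h7 : (0 : ZMod p) = -1 := by simpa using ht4
      linear_combination h7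
    exact one_ne_zero this
  have hord : orderOf t = 2 ^ (2 + 1) := by
    apply orderOf_eq_prime_pow
    · have e : (2:ℕ) ^ 2 = 4 := by norm_num
      rw [e, ht4]
      exact ZMod.neg_one_ne_one
    · have e : t ^ (2 ^ (2 + 1)) = (t ^ 4) ^ 2 := by rw [← pow_mul]; norm_num
      rw [e, ht4]; ring
  have hdv : orderOf t ∣ p - 1 := orderOf_dvd_of_pow_eq_one (ZMod.pow_card_sub_one_eq_one ht0)
  rw [hord] at hdv
  norm_num at hdv
  omega

end JP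


namespace JM

theorem mod16_aux (n : ℤ) : (n % 2 = 0 ∧ n ^ 4 % 16 = 0) ∨ (n % 2 = 1 ∧ n ^ 4 % 16 = 1) := by
  rcases Int.emod_two_eq_zero_or_one n with h | h
  · left
    refine ⟨h, ?_⟩
    obtain ⟨k, hk⟩ : ∃ k, n = 2 * k := ⟨n / 2, by omega⟩
    rw [hk]
    have : (2 * k) ^ 4 = 16 * k ^ 4 := by ring
    rw [this]
    omega
  · right
    refine ⟨h, ?_⟩
    obtain ⟨k, hk⟩ : ∃ k, n = 2 * k + 1 := ⟨n / 2, by omega⟩
    have h2 : ∃ m, k * (3 * k + 1) = 2 * m := by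
      rcases Int.even_or_odd' k with ⟨j, hj | hj⟩
      · exact ⟨j * (3 * k + 1), by rw [hj]; ring⟩
      · exact ⟨k * (3 * j + 2), by rw [hj]; ring⟩
    obtain ⟨m, hm⟩ := h2
    have : n ^ 4 = 16 * (k ^ 4 + 2 * k ^ 3 + m) + 1 := by
      rw [hk]
      linear_combination 8 * hm
    rw [this]
    omega

theorem mod16 (x y c z : ℤ) (h : IsCoprime x y) (e : x ^ 4 + y ^ 4 = c * z ^ 4) :
    c % 16 = 1 ∨ c % 16 = 2 := by
  have hx := mod16_aux x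
  have hy := mod16_aux y
  have hz := mod16_aux z
  have hnot : ¬ (x % 2 = 0 ∧ y % 2 = 0) := by
    rintro ⟨h1, h2⟩
    have d1 : (2:ℤ) ∣ x := Int.dvd_of_emod_eq_zero h1
    have d2 : (2:ℤ) ∣ y := Int.dvd_of_emod_eq_zero h2
    have := h.isUnit_of_dvd' d1 d2
    rw [Int.isUnit_iff] at this
    omega
  have hs : (x ^ 4 + y ^ 4) % 16 = 1 ∨ (x ^ 4 + y ^ 4) % 16 = 2 := by omega
  have hm : (c * z ^ 4) % 16 = (c % 16) * (z ^ 4 % 16) % 16 := Int.mul_emod _ _ _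
  rw [e, hm] at hs
  rcases hz with ⟨-, hz⟩ | ⟨-, hz⟩
  · rw [hz] at hs
    omega
  · rw [hz] at hs
    omega

end JM


namespace JI

theorem infi : {c : ℤ | Admissible c}.Infinite := by
  have hm : StrictMono (fun s : ℕ => (5906 + 20 * 149 ^ 3 * (s : ℤ) + 150 * 149 ^ 2 * 83521 * (s : ℤ) ^ 2
      + 500 * 149 * 83521 ^ 2 * (s : ℤ) ^ 3 + 625 * 83521 ^ 3 * (s : ℤ) ^ 4 : ℤ)) := by
    intro s t hst
    have h0 : (0 : ℤ) ≤ (s : ℤ) := Int.natCast_nonneg s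
    have h1 : (s : ℤ) < (t : ℤ) := by exact_mod_cast hst
    have h2 : (s : ℤ) ^ 2 ≤ (t : ℤ) ^ 2 := by gcongr
    have h3 : (s : ℤ) ^ 3 ≤ (t : ℤ) ^ 3 := by gcongr
    have h4 : (s : ℤ) ^ 4 ≤ (t : ℤ) ^ 4 := by gcongr
    show (5906 + 20 * 149 ^ 3 * (s : ℤ) + 150 * 149 ^ 2 * 83521 * (s : ℤ) ^ 2
      + 500 * 149 * 83521 ^ 2 * (s : ℤ) ^ 3 + 625 * 83521 ^ 3 * (s : ℤ) ^ 4 : ℤ) <
      (5906 + 20 * 149 ^ 3 * (t : ℤ) + 150 * 149 ^ 2 * 83521 * (t : ℤ) ^ 2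
      + 500 * 149 * 83521 ^ 2 * (t : ℤ) ^ 3 + 625 * 83521 ^ 3 * (t : ℤ) ^ 4 : ℤ)
    linarith
  apply Set.infinite_of_injective_forall_mem hm.injective
  intro s
  refine ⟨25, 149 + 5 * 83521 * s, 17, ?_, by norm_num, ?_⟩
  · have h5 : IsCoprime (5 : ℤ) (149 + 5 * 83521 * s) := ⟨30 + 83521 * s, -1, by ring⟩
    have h25 : IsCoprime ((5 : ℤ) ^ 2) (149 + 5 * 83521 * s) := h5.pow_left
    have e : (25 : ℤ) = 5 ^ 2 := by norm_num
    rw [e]
    exact h25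
  · ring

end JI


theorem necessary (c : ℤ) (h : Admissible c) :
    (c % 16 = 1 ∨ c % 16 = 2) ∧
      ∀ p : ℕ, p.Prime → p ≠ 2 → (p : ℤ) ∣ c → p % 8 = 1 := by
  obtain ⟨x, y, z, hxy, _, e⟩ := h
  refine ⟨JM.mod16 x y c z hxy e, fun p hp h2 hd => ?_⟩
  exact JP.primes x y hxy p hp h2 (e ▸ hd.mul_right _)

theorem zprimes (x y z c : ℤ) (hxy : IsCoprime x y) (e : x ^ 4 + y ^ 4 = c * z ^ 4)
    (p : ℕ) (hp : p.Prime) (hd : (p : ℤ) ∣ z) : p % 8 = 1 := by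
  have hd4 : (p : ℤ) ∣ x ^ 4 + y ^ 4 := e ▸ (hd.pow (by norm_num)).mul_left _
  rcases eq_or_ne p 2 with rfl | h2
  · exfalso
    have h := JM.mod16 x y (x ^ 4 + y ^ 4) 1 hxy (by ring)
    obtain ⟨t, rfl⟩ := hd
    have h16 : x ^ 4 + y ^ 4 = 16 * (c * t ^ 4) := by rw [e]; push_cast; ring
    omega
  · exact JP.primes x y hxy p hp h2 hd4

theorem infinite : {c : ℤ | Admissible c}.Infinite := JI.infi

end Pool.Agent.Helper808.Quart
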